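import Pool.Agent.Helper85_PVD.WPS
import Pool.Agent.Helper64_BM.Pi

/-! Squad PVD, row WLC. -/

set_option autoImplicit false

open MeasureTheory Metric Set Filter Topology

namespace PVD.H85

open PV PV3

theorem wlc : WLCStmt := by
  intro n R H H' hR l hl0 hl1
  have h1l : 0 < 1 - l := by linarith
  have hc1 := (wps n R H hR).1
  have hc2 := (wps n R H' hR).1
  have hc3 := (wps n R (fun r => (1 - l) * H r + l * H' r) hR).1
  have key := BM64.bm_mul_pi hl0 hl1 hc1.measurableSet hc2.measurableSet hc3.measurableSet
    (by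
      intro x hx y hy
      refine ⟨fun j => ?_, fun r hr => ?_⟩
      · simp only [Pi.add_apply, Pi.smul_apply, smul_eq_mul]
        exact add_nonneg (mul_nonneg h1l.le (hx.1 j)) (mul_nonneg hl0.le (hy.1 j))
      · have h1 := hx.2 r hr
        have h2 := hy.2 r hr
        have h3 : ∑ j : Fin n, kap n r (j.1 + 1) * ((1 - l) • x + l • y) j =
            (1 - l) * (∑ j : Fin n, kap n r (j.1 + 1) * x j) +
              l * (∑ j : Fin n, kap n r (j.1 + 1) * y j) := by
          rw [Finset.mul_sum, Finset.mul_sum, ← Finset.sum_add_distrib]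
          refine Finset.sum_congr rfl fun j _ => ?_
          simp only [Pi.add_apply, Pi.smul_apply, smul_eq_mul]
          ring
        rw [h3]
        exact add_le_add (mul_le_mul_of_nonneg_left h1 h1l.le)
          (mul_le_mul_of_nonneg_left h2 hl0.le))
  have h4 := ENNReal.toReal_mono hc3.measure_lt_top.ne key
  rw [ENNReal.toReal_mul, ← ENNReal.toReal_rpow, ← ENNReal.toReal_rpow] at h4
  exact h4

end PVD.H85
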