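import Pool.Agent.PVD.StmtsG

/-! Squad PVD, row WPS. -/

set_option autoImplicit false

open MeasureTheory Metric Set Filter Topology

namespace PVD.H85

open PV PV3

theorem kap_pos {n r j : ℕ} (hr1 : 1 ≤ r) (hrn : r ≤ n) (hj1 : 1 ≤ j) (hjn : j ≤ n) :
    0 < kap n r j := by
  unfold kap
  have h1 : (1 : ℝ) ≤ (min r j : ℝ) := by
    rw [le_min_iff]
    exact ⟨by exact_mod_cast hr1, by exact_mod_cast hj1⟩
  have h2 : (max r j : ℝ) ≤ n := by
    rw [max_le_iff]
    exact ⟨by exact_mod_cast hrn, by exact_mod_cast hjn⟩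
  have h3 : (0 : ℝ) < (n : ℝ) + 1 := by positivity
  apply div_pos _ h3
  apply mul_pos
  · linarith
  · linarith

theorem isClosed_Ch (n : ℕ) (R : Finset ℕ) (H : ℕ → ℝ) : IsClosed (Ch n R H) := by
  have : Ch n R H = (⋂ j : Fin n, {d : Fin n → ℝ | 0 ≤ d j}) ∩
      ⋂ r ∈ R, {d : Fin n → ℝ | ∑ j : Fin n, kap n r (j.1 + 1) * d j ≤ H r} := by
    ext d
    simp [Ch]
  rw [this]
  apply IsClosed.inter
  · exact isClosed_iInter fun j => isClosed_le continuous_const (continuous_apply j)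
  · refine isClosed_biInter fun r _ => isClosed_le ?_ continuous_const
    exact continuous_finsetSum _ fun j _ => continuous_const.mul (continuous_apply j)

theorem wps : WPSStmt := by
  intro n R H hR
  obtain ⟨⟨r, hr⟩, hR2⟩ := hR
  have hcomp : IsCompact (Ch n R H) := by
    have hsub : Ch n R H ⊆ Set.pi Set.univ fun j : Fin n => Set.Icc (0 : ℝ) (H r / kap n r (j.1 + 1)) := by
      intro d hd
      rw [Set.mem_univ_pi]
      intro j
      have hk : 0 < kap n r (j.1 + 1) :=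
        kap_pos (hR2 r hr).1 (hR2 r hr).2 (by omega) (by have := j.2; omega)
      refine ⟨hd.1 j, ?_⟩
      rw [le_div_iff₀ hk]
      have h1 := hd.2 r hr
      have h2 : kap n r (j.1 + 1) * d j ≤ ∑ i : Fin n, kap n r (i.1 + 1) * d i := by
        apply Finset.single_le_sum (f := fun i : Fin n => kap n r (i.1 + 1) * d i) (fun i _ => ?_)
          (Finset.mem_univ j)
        exact mul_nonneg (kap_pos (hR2 r hr).1 (hR2 r hr).2 (by omega)
          (by have := i.2; omega)).le (hd.1 i)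
      rw [mul_comm]
      exact h2.trans h1
    exact (isCompact_univ_pi fun j => isCompact_Icc).of_isClosed_subset (isClosed_Ch n R H) hsub
  refine ⟨hcomp, fun hH => ?_⟩
  -- a small cube
  have hδ : ∃ δ : ℝ, 0 < δ ∧ ∀ s ∈ R, (∑ j : Fin n, kap n s (j.1 + 1)) * δ ≤ H s := by
    have hfin : ∀ s ∈ R, ∀ᶠ δ in 𝓝[>] (0 : ℝ), (∑ j : Fin n, kap n s (j.1 + 1)) * δ ≤ H s := by
      intro s hs
      have ht : Tendsto (fun δ : ℝ => (∑ j : Fin n, kap n s (j.1 + 1)) * δ) (𝓝[>] 0) (𝓝 0) := by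
        have : Tendsto (fun δ : ℝ => (∑ j : Fin n, kap n s (j.1 + 1)) * δ) (𝓝 0)
            (𝓝 ((∑ j : Fin n, kap n s (j.1 + 1)) * 0)) := tendsto_const_nhds.mul tendsto_id
        rw [mul_zero] at this
        exact this.mono_left nhdsWithin_le_nhds
      exact (ht.eventually (gt_mem_nhds (hH s hs))).mono fun x hx => le_of_lt hx
    have hall : ∀ᶠ δ in 𝓝[>] (0 : ℝ), ∀ s ∈ R, (∑ j : Fin n, kap n s (j.1 + 1)) * δ ≤ H s :=
      (Filter.eventually_all_finset R).2 hfin
    obtain ⟨δ, h1, h2⟩ := (hall.and self_mem_nhdsWithin).exists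
    exact ⟨δ, h2, h1⟩
  obtain ⟨δ, hδ0, hδ⟩ := hδ
  have hcube : (Set.pi Set.univ fun _ : Fin n => Set.Icc (0 : ℝ) δ) ⊆ Ch n R H := by
    intro d hd
    rw [Set.mem_univ_pi] at hd
    refine ⟨fun j => (hd j).1, fun s hs => ?_⟩
    refine le_trans ?_ (hδ s hs)
    rw [Finset.sum_mul]
    refine Finset.sum_le_sum fun j _ => ?_
    exact mul_le_mul_of_nonneg_left (hd j).2 (kap_pos (hR2 s hs).1 (hR2 s hs).2 (by omega)
      (by have := j.2; omega)).le
  unfold W
  rw [ENNReal.toReal_pos_iff]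
  refine ⟨lt_of_lt_of_le ?_ (measure_mono hcube), hcomp.measure_lt_top⟩
  rw [MeasureTheory.volume_pi, Measure.pi_pi]
  rw [Finset.prod_const]
  apply ENNReal.pow_pos
  simp [hδ0]

end PVD.H85
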